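import Mathlib

set_option autoImplicit false

open Nat

namespace Pool.Agent.Results.MP_71df81_al.AllValues

def B (n k : ℕ) (u v : ℕ → ℤ) : ZMod k :=
  ((∑ j ∈ Finset.range n, ∑ i ∈ Finset.range j, (j ! : ℤ) * u j * v i : ℤ) : ZMod k)

theorem B_add_left (n k : ℕ) (u u' v : ℕ → ℤ) : B n k (u + u') v = B n k u v + B n k u' v := by
  simp [B, mul_add, add_mul, Finset.sum_add_distrib]

theorem B_add_right (n k : ℕ) (u v v' : ℕ → ℤ) : B n k u (v + v') = B n k u v + B n k u v' := by
  simp [B, mul_add, Finset.sum_add_distrib]

def T (n k : ℕ) (u : ℕ → ℤ) (c : ZMod k) : Equiv.Perm ((ℕ → ℤ) × ZMod k) where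
  toFun x := (x.1 + u, x.2 + c + B n k u x.1)
  invFun x := (x.1 - u, x.2 - c - B n k u (x.1 - u))
  left_inv x := Prod.ext (by simp) (by simp only [add_sub_cancel_right]; ring)
  right_inv x := Prod.ext (by simp) (by simp only []; ring)

theorem T_mul (n k : ℕ) (u u' : ℕ → ℤ) (c c' : ZMod k) :
    T n k u c * T n k u' c' = T n k (u + u') (c + c' + B n k u u') := by
  refine Equiv.ext fun x => ?_
  change ((x.1 + u') + u, (x.2 + c' + B n k u' x.1) + c + B n k u (x.1 + u')) =
    (x.1 + (u + u'), x.2 + (c + c' + B n k u u') + B n k (u + u') x.1)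
  rw [B_add_left, B_add_right]
  congr 1 <;> ring

theorem T_inj {n k : ℕ} {u u' : ℕ → ℤ} {c c' : ZMod k} (h : T n k u c = T n k u' c') :
    u = u' ∧ c = c' := by
  have := congrArg (fun f : Equiv.Perm ((ℕ → ℤ) × ZMod k) => f (0, 0)) h
  simpa [T, B] using this

def W : List ℕ → ℕ
  | [] => 0
  | a :: l => a ! * (∑ i ∈ Finset.range a, l.count i) + W l

theorem prod_eq (n k : ℕ) (l : List ℕ) (hl : ∀ a ∈ l, a < n) :
    (l.map fun a => T n k (Pi.single a 1) 0).prod = T n k (fun x => l.count x) (W l) := by
  induction l with
  | nil =>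
    refine Equiv.ext fun x => ?_
    ext <;> simp [T, B, W]
  | cons a l ih =>
    rw [List.map_cons, List.prod_cons, ih fun b hb => hl b (List.mem_cons_of_mem _ hb), T_mul]
    congr 1
    · funext x
      by_cases h : x = a
      · subst h
        simp [add_comm]
      · simp [h, List.count_cons_of_ne (Ne.symm h)]
    · have ha : a < n := hl a List.mem_cons_self
      rw [B, Finset.sum_eq_single a]
      · simp [W, Finset.mul_sum, add_comm]
      · intro b _ hb
        simp [hb]
      · simp [ha]

theorem sum_count (n : ℕ) (l : List ℕ) (hl : ∀ a ∈ l, a < n) :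
    ∑ i ∈ Finset.range n, l.count i = l.length := by
  induction l with
  | nil => simp
  | cons a l ih =>
    have ha : a < n := hl a List.mem_cons_self
    simp [List.count_cons, Finset.sum_add_distrib, ih fun b hb => hl b (List.mem_cons_of_mem _ hb),
      ha]

theorem W_insert (n : ℕ) (l₁ l₂ : List ℕ) (hl : ∀ a ∈ l₁ ++ l₂, a < n) :
    W (l₁ ++ n :: l₂) = W (l₁ ++ l₂) + n ! * l₂.length := by
  induction l₁ with
  | nil => simp [W, sum_count n l₂ (by simpa using hl), add_comm]
  | cons a l ih =>
    have ha : a < n := hl a List.mem_cons_self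
    simp only [List.cons_append, W]
    rw [ih fun b hb => hl b (List.mem_cons_of_mem _ hb), ← add_assoc]
    congr 3
    refine Finset.sum_congr rfl fun i hi => ?_
    have : n ≠ i := by
      have := Finset.mem_range.1 hi
      omega
    simp [List.count_cons_of_ne this]

theorem W_surj (n : ℕ) : ∀ m < n !, ∃ l : List ℕ, l.Perm (List.range n) ∧ W l = m := by
  induction n with
  | zero =>
    intro m hm
    exact ⟨[], by simp, by simp at hm; simp [W, hm]⟩
  | succ n ih =>
    intro m hm
    obtain ⟨l, hl, e⟩ := ih (m % n !) (Nat.mod_lt _ n.factorial_pos)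
    have hq : m / n ! ≤ n := by
      rw [← Nat.lt_succ_iff, Nat.div_lt_iff_lt_mul n.factorial_pos]
      exact hm
    have hlen : l.length = n := by simpa using hl.length_eq
    refine ⟨l.take (n - m / n !) ++ n :: l.drop (n - m / n !), ?_, ?_⟩
    · refine List.perm_middle.trans ?_
      rw [List.take_append_drop, List.range_succ]
      exact (hl.cons n).trans (List.perm_append_singleton _ _).symm
    · rw [W_insert, List.take_append_drop, e, List.length_drop, hlen, Nat.sub_sub_self hq,
        Nat.mod_add_div]
      rw [List.take_append_drop]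
      intro a ha
      simpa using hl.subset ha

/-- Every value between one and the factorial is the number of products of distinct elements. -/
theorem result (n k : ℕ) (h1 : 1 ≤ k) (hk : k ≤ n !) :
    ∃ (G : Type) (_ : Group G) (g : Fin n → G), Function.Injective g ∧
      Set.ncard {x : G | ∃ σ : Equiv.Perm (Fin n), x = (List.ofFn fun i => g (σ i)).prod} = k := by
  have : NeZero k := ⟨by omega⟩
  refine ⟨Equiv.Perm ((ℕ → ℤ) × ZMod k), inferInstance, fun i => T n k (Pi.single i.val 1) 0,
    fun i j h => ?_, ?_⟩
  · have := congrFun (T_inj h).1 i.val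
    by_contra hij
    simp [Fin.val_ne_of_ne hij] at this
  have key : ∀ σ : Equiv.Perm (Fin n),
      (List.ofFn fun i => T n k (Pi.single (σ i).val 1) 0).prod =
      T n k (fun x => (List.range n).count x) (W (List.ofFn fun i => (σ i).val)) := by
    intro σ
    have hp : (List.ofFn fun i => (σ i).val).Perm (List.range n) := by
      refine (Equiv.Perm.ofFn_comp_perm σ Fin.val).trans (List.Perm.of_eq ?_)
      exact List.ext_getElem (by simp) (by simp)
    have := prod_eq n k (List.ofFn fun i => (σ i).val) (by simp [List.mem_ofFn])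
    rw [List.map_ofFn] at this
    refine this.trans ?_
    simp only [hp.count_eq]
  have hs : {x | ∃ σ : Equiv.Perm (Fin n),
      x = (List.ofFn fun i => T n k (Pi.single (σ i).val 1) 0).prod} =
      Set.range fun r : ZMod k => T n k (fun x => (List.range n).count x) r := by
    ext x
    constructor
    · rintro ⟨σ, rfl⟩
      exact ⟨_, (key σ).symm⟩
    · rintro ⟨r, rfl⟩
      obtain ⟨l, hl, e⟩ := W_surj n r.val (r.val_lt.trans_le hk)
      have hlen : l.length = n := by simpa using hl.length_eq
      let f : Fin n → Fin n := fun i =>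
        ⟨l[i.val]'(by omega), by simpa using hl.subset (List.getElem_mem _)⟩
      have hf : Function.Injective f := by
        intro i j hij
        have hn : l.Nodup := hl.nodup_iff.2 List.nodup_range
        exact Fin.ext ((hn.getElem_inj_iff).1 (congrArg Fin.val hij))
      refine ⟨Equiv.ofBijective f (Finite.injective_iff_bijective.1 hf), ?_⟩
      rw [key]
      have : (List.ofFn fun i => (Equiv.ofBijective f (Finite.injective_iff_bijective.1 hf) i).val)
          = l := List.ext_getElem (by simp [hlen]) (by simp [f])
      rw [this, e, ZMod.natCast_zmod_val]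
  rw [hs, Set.ncard_range_of_injective fun r s h => (T_inj h).2, Nat.card_zmod]

end Pool.Agent.Results.MP_71df81_al.AllValues
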